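import Pool.Agent.V1142.XZ.AhsTimes

/-!
# The index of the absolutely Hodge classes among the Hodge classes on the products `Z × X^n`

Let `T` be a Hodge theory on a class of smooth projective varieties (in the intended use the
varieties are all smooth projective complex varieties, or those over an algebraically closed
subfield, and `T` is `X ↦ H(X, ℚ)`), and `D` the family of conjugate theories (the theories
`X ↦ H(X^σ, ℚ)` for the automorphisms `σ` of `ℂ`, with the comparison isomorphisms given by de Rham
cohomology and by `ℓ`-adic cohomology for all primes `ℓ`).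

Let `X` be a variety, let `h(Y)` and `a(Y)` be the numbers of linearly independent Hodge classes and
absolutely Hodge classes on `Y`. There is `N` in `{1, 2, …, ∞}` such that `h(X^n) / a(X^n)` tends to
`N`, with `N = 1` if and only if all Hodge classes on all powers of `X` are absolutely Hodge. For
every variety `Z` with total Betti number `b(Z)` there are integers `1 ≤ q ≤ p ≤ b(Z)` such that

* `h(Z × X^n) / h(X^n)` tends to `p`, and `a(Z × X^n) / a(X^n)` tends to `q`;
* `h(Z × X^n) / a(Z × X^n)` tends to `N p / q`;
* all Hodge classes on all products `Z × X^n` are absolutely Hodge if and only if `N = 1` and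
  `p = q`.

So if one Hodge class on one product `Z × X^n` is not absolutely Hodge, then a share of at least
`1 / (b(Z) + 1)` of the Hodge classes on `Z × X^n` is asymptotically not absolutely Hodge, and at
least one half if this happens for a power of `X`.
-/

open CategoryTheory AlgebraicGeometry Filter Topology

open scoped ENNReal

universe u

namespace Pool.Agent.Results.MP_4e1cf2_ag.IndexTimes

open Pool.Agent.H914 Pool.Agent.Y121.AHS Pool.Agent.Y121.AHS.Full
open Pool.Agent.Y133.Half (pw)

variable {k : Type u} [Field k] {𝒱 : VarClass k} {ops : CycleOps 𝒱}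

/-- The index law: `pw X n` is the product of `n + 1` copies of `X`. -/
theorem result (T : HodgeTheory ops) (D : Full.Conjugates T) (X : 𝒱.Obj)
    [Nontrivial (T.W.H X)] : ∃ N : ℕ∞, 1 ≤ N ∧
      Pool.Agent.Y133.Half.HasIndex (fun n => hodgeDim T (pw X n))
        (fun n => Full.absDim D (pw X n)) N ∧
      (N = 1 ↔ ∀ n j c, IsHodge T (pw X n) j c → Full.IsAbsHodge D (pw X n) j c) ∧
      ∀ Z : 𝒱.Obj, Nontrivial (T.W.H Z) → ∃ p q : ℕ, 1 ≤ q ∧ q ≤ p ∧
        p ≤ Module.finrank T.W.K (T.W.H Z) ∧
        Pool.Agent.Y133.Half.HasIndex (fun n => hodgeDim T (Z.prod (pw X n)))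
          (fun n => hodgeDim T (pw X n)) p ∧
        Pool.Agent.Y133.Half.HasIndex (fun n => Full.absDim D (Z.prod (pw X n)))
          (fun n => Full.absDim D (pw X n)) q ∧
        Tendsto (fun n => (hodgeDim T (Z.prod (pw X n)) : ℝ≥0∞) /
          Full.absDim D (Z.prod (pw X n))) atTop (𝓝 ((N : ℝ≥0∞) * ((p : ℝ≥0∞) / q))) ∧
        ((N = 1 ∧ p = q) ↔ ∀ n j c, IsHodge T (Z.prod (pw X n)) j c →
          Full.IsAbsHodge D (Z.prod (pw X n)) j c) :=
  Pool.Agent.V1142.XZ.ahs_times T D X

end Pool.Agent.Results.MP_4e1cf2_ag.IndexTimes
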