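import Pool.Agent.V11106.SH.AH

/-!
# Hodge classes are absolute Hodge, up to errors which are small compared with the Betti number

Let `W s` be a family of Weil cohomology theories (for the problem: the Betti cohomology, with
rational coefficients, of the conjugates of the complex varieties by the automorphisms `s` of the
complex numbers) on a class of varieties closed under products, with Hodge classes and comparisons
with common rings `R X` (the product of the de Rham and the étale cohomology). Assume that the class contains, for
every `N`, a surface with algebraic cohomology and `N` independent divisor classes (a blow-up of the
projective plane). Fix `s`.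

**Fixed dimension.** If on the varieties of dimension `n + 2` the dimension of the space of the
Hodge classes of codimension `p + 1` exceeds the dimension of the space of the absolute Hodge
classes by at most `o(b)`, where `b` is the Betti number `b_(2 p + 2)`, then on all varieties of
dimension `n` all Hodge classes of codimension `p` are absolute Hodge.

**All dimensions.** Hence the statement that all Hodge classes are absolute Hodge is equivalent to
differences of these dimensions which are bounded in each dimension and codimension, and to
differences which are `o(b)`.
-/

open CategoryTheory AlgebraicGeometry

universe u v w x

namespace Pool.Agent.Results.MP_4e1cf2_ag.SublinearDefects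

open Pool.Agent.H914 VarClass Obj WeilCohomology Pool.Agent.V11106.LB Pool.Agent.V11106.SH

variable {k : Type u} [Field k] {𝒱 : VarClass k} {ops : CycleOps 𝒱}

theorem result {S : Type w} (W : S → WeilCohomology.{u, v} ops)
    (Φ : HodgeFamily.{u, v, w, x} W) (s : S) (hT : HasRationalSurfaces (W s)) :
    (∀ n p : ℕ, HodgeSublinear Φ s (n + 2) (p + 1) → HodgeIsAbsolute Φ s n p) ∧
    [∀ n p : ℕ, HodgeIsAbsolute Φ s n p, ∀ n p : ℕ, HodgeBounded Φ s n p,
      ∀ n p : ℕ, HodgeSublinear Φ s n p].TFAE :=
  hodge_main Φ s hT

end Pool.Agent.Results.MP_4e1cf2_ag.SublinearDefects
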