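import Pool.Agent.V11219.NcMain

/-!
# Hodge classes and absolute Hodge classes on products: comparison of ranks

Let `W` be a Weil cohomology theory with algebraically closed coefficients (singular cohomology with
complex coefficients, or `ℓ`-adic cohomology) on a class of smooth projective varieties, and let `Γ` be a
group which acts on the cohomology of the varieties `X_i`, `Y_b` and `Z` with the formal properties of the
action of a Galois group or a Mumford-Tate group (`χ` is the action on the Tate twists, `χ = 1` for a
geometric monodromy group).

Let `H` and `C` be two systems of classes (`ClassSystem`): for every variety `A` spaces `H(A)`, `C(A)` of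
cohomology classes, containing the classes of algebraic cycles and stable under products, pull-backs
and push-forwards, such as the combinations of Hodge classes, of absolute Hodge classes, of motivated
classes or of algebraic classes. `Included H C A` is the statement `H(A) ⊆ C(A)`. On the products
considered below the space `H(A)` is supposed to be spanned by elements of `H(A)` which are multiplied
by powers of `χ(g)` by all `g` in a subgroup of finite index of `Γ` (`SemiOn`); nothing is assumed on
`C`.

The examples for this problem: `H` = Hodge classes and `C` = absolute Hodge classes; (1) `Γ` is the group of
complex points of the Mumford-Tate group of the cohomology of the `X_i`, `Y_b` and `Z`; (2) `χ = 1`, the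
varieties are very general members of algebraic families over the same base, and `Γ` is the
fundamental group of the base: it is known that Hodge classes at a very general point are invariant
under a subgroup of finite index.

All varieties `X_i` (`i` in a finite set) and `Y_b` (`b` in a finite set) have odd dimension, numerical
and homological equivalence coincide for them (for example curves, hypersurfaces, complete
intersections) and for the powers of the `X_i`, and their transcendental cohomology `T(X_i)`, `T(Y_b)`
(the orthogonal complement of the algebraic classes) is concentrated in the middle degree; the `Y_b`
have the same dimension, the `T(X_i)` are irreducible under all subgroups of finite index and no two of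
them are isomorphic up to scalars. **Nothing else is assumed on the `Y_b`** and nothing at all is
assumed on `Z`.

Let `N` be the set of the `g ∈ Γ` with `χ(g) = 1` which act trivially on the cohomology of `Z` and with
`(g - 1) ^ 2 = 0` on all `T(X_j)` and all `T(Y_b)` (for instance products of local monodromy operators at
points of the boundary where `Z` does not degenerate and the `X_j`, `Y_b` acquire ordinary double
points, or are curves with semistable reduction; **all** of them may degenerate at the same points).
Assume for every `i`:

* **(small defects)** some `g ∈ N` has defects on `T(X_i)` without a common prime factor, or the defect
  two; here the defects of `g` are the rank of `g - 1` on `T(X_i)` and the multiplicities of the nonzero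
  eigenvalues of `(g - 1) (g' - 1)` on `T(X_i)`, for `g' ∈ N`. (Or: the conjugates of some `g ∈ N` act
  irreducibly on `T(X_i)` and the defects of all elements of `N` have no common prime factor.)
* **(larger rank)** for some `g ∈ N` the rank of `g - 1` on `T(X_i)` is larger than the sum of the
  ranks of `g - 1` on the `T(Y_b)`.

Let `Z₁` be a product of `Z` with arbitrary powers of the `Y_b`, and `T` a product of `Z₁` with
arbitrary powers of the `X_i`. Then `H(T) ⊆ C(T)` **if and only if** `H(Z₁) ⊆ C(Z₁)`: all Hodge classes on
`T` are absolute Hodge if and only if all Hodge classes on `Z₁` are. For instance this is true if `Z` is
an abelian variety and the `Y_b` are curves, by the theorem of Deligne, while the `X_i` may be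
hypersurfaces of any odd dimension, whose motives are not of abelian type.

Proof. By the theory of extremal elements of Lie algebras (see `MP_0d42ed_ag.SemistableProducts`) a
potentially semi-invariant class on the product of a power of `X_i` with `A` is a combination of
products `m_l x_l` of algebraic classes `m_l` of the power, linearly independent, with classes `x_l` of
`A`. As numerical and homological equivalence coincide for the power of `X_i`, the intersection form on
its algebraic classes is nondegenerate, so `x_l` is the push-forward of the product of the class with an
algebraic class of the power, and belongs to `H(A)` if the class belongs to `H`.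
-/

universe u

namespace Pool.Agent.Results.MP_4e1cf2_ag.TwoSystems

open Pool.Agent.H914 Pool.Agent.H281R3.HT Pool.Agent.TH125.Gal Pool.Agent.V11219.Min
  Pool.Agent.V11219.Cls

/-- **Two systems of classes on products with powers, comparison of ranks.** -/
theorem result {k : Type u} [Field k] {𝒱 : VarClass k} {ops : CycleOps 𝒱}
    (W : WeilCohomology.{u, 0} ops) [IsAlgClosed W.K] {Γ : Type} [Group Γ] (χ : CharOf W Γ)
    (H C : Classes W) (hH : ClassSystem W H) (hC : ClassSystem W C)
    {ι β : Type} [Finite ι] [Fintype β] (X : ι → GVar W Γ) (Y : β → GVar W Γ) (d : ℕ)
    (Z : GVar W Γ) (h : FamilyOver χ X Y d Z) (hD : ∀ i, PowersHomEqNum (X i)) (S' : Set β)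
    (Z₁ : GVar W Γ) (hZ : Tower Y Z S' Z₁) (hs : ∀ S A, Tower X Z₁ S A → SemiOn χ H A)
    (S : Set ι) (T : GVar W Γ) (hT : Tower X Z₁ S T) :
    Included H C T ↔ Included H C Z₁ := by
  classical
  have := Fintype.ofFinite ι
  exact two_over hH hC h.over hD (hZ.gTower fun b => (h.good' b).1) hs hT

end Pool.Agent.Results.MP_4e1cf2_ag.TwoSystems
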