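import Pool.Agent.V11286.RL.Dim
import Pool.Agent.V11286.RL.Tup
import Pool.Agent.Results.MP_4e1cf2_ag.ArbitraryFactor

/-!
# Hodge classes on the products of a sequence of arbitrary varieties and ALL tuples of fibres in short windows

Let `β_1, …, β_m`, `m ≥ 2`, be rational numbers in `(0, 1)`. The hypergeometric operator
`θ^(2m) - z ∏_j (θ + β_j) (θ + 1 - β_j)` underlies an irreducible variation of Hodge structure of rank `2m` and of weight
`2m - 1` on the projective line minus three points; for `m = 2` and `β = (1/5, 2/5)` it is the variation of the third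
cohomology of the mirror quintics. Let `Z_1, Z_2, …` be ANY sequence of smooth projective varieties with `dim H^*(Z_n) = d`,
and let `k ≥ 1`. There is `δ > 0`, depending on `k`, `d` and the variation only, such that for all sequences `v ≥ 1` of
exponent of convergence at most `τ` (for `b ^ n` it is `0`), all `θ < 1` and all `α ∈ ℝ ^ k` outside a set of dimension at
most `(k - δ + τ) / (1 - θ)`, for all but finitely many `n` and ALL `k`-tuples of fibres `X_1, …, X_k` at the points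
`(1 / t_1, …, 1 / t_k)` in the window `|t_i - v_n α_i| ≤ v_n ^ θ`: every Hodge class on `Z_n^j × ∏_i X_i^{r_i}` is a
combination of products of Hodge classes on `Z_n^j` and of the polarisations of the `X_i`. So if the Hodge classes on the
powers of the `Z_n` are absolute Hodge, then so are all the Hodge classes on these products.
-/

set_option autoImplicit false

open MeasureTheory

namespace Pool.Agent.Results.MP_4e1cf2_ag.WindowsOfFibres

open Pool.Agent.Results.MP_4e1cf2_ag.ArbitraryFactor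
open Pool.Agent.V11286.RL
open Pool.Agent.V35.WM (ExpLe expLe_geom expLe_pow null_of_dimH)

/-- **Theorem.** For all `k ≥ 1` and `d` there is `0 < δ ≤ 1` such that for all sequences of rational structures
`(C_n, A_n)` and of Hodge structures `U_n` on `ℚ ^ d` (for instance those of `Z_n`), all sequences `v ≥ 1` of exponent of
convergence at most `τ ≥ 0` and all `θ < 1` there is a set `E ⊆ ℝ ^ k` of Hausdorff dimension at most
`(k - δ + τ) / (1 - θ)`, and of Lebesgue measure zero if `k - δ + τ < (1 - θ) k`, such that for all `α` outside `E`, all but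
finitely many `n` and ALL `t ∈ ℕ ^ k` with `|t_i - v_n α_i| ≤ (v_n) ^ θ`: for the fibres `V_i` at `1 / t_i` all the Hodge
classes are combinations of products (`OnlyProducts`). The sequences `b ^ n` and `(n + 1) ^ a` have exponent of convergence
at most `0` and `1 / a`. -/
theorem result {m : ℕ} (hm : 2 ≤ m) (β : Fin m → ℚ) (hβ : ∀ j, 0 < β j ∧ β j < 1) :
    (∀ k d : ℕ, 1 ≤ k → ∃ δ : ℝ, 0 < δ ∧ δ ≤ 1 ∧
      ∀ (C : ℕ → Matrix (Fin (2 * m)) (Fin (2 * m)) ℂ) (A : ℕ → Matrix (Fin (2 * m)) (Fin (2 * m)) ℚ),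
      (∀ n, RationalStructure (C n) (A n)) →
      ∀ U : ℕ → ℤ → Submodule ℂ (Fin d → ℂ), (∀ n, DirectSum.IsInternal (U n)) →
      ∀ (v : ℕ → ℝ) (τ θ : ℝ), (∀ n, 1 ≤ v n) → 0 ≤ τ → ExpLe v τ → θ < 1 →
      ∃ E : Set (Fin k → ℝ), dimH E ≤ ENNReal.ofReal (((k : ℝ) - δ + τ) / (1 - θ)) ∧
        ((k : ℝ) - δ + τ < (1 - θ) * k → volume E = 0) ∧
        ∀ α : Fin k → ℝ, α ∉ E → ∃ n₀ : ℕ, ∀ n : ℕ, n₀ ≤ n → ∀ t : Fin k → ℕ,
          (∀ i, |(t i : ℝ) - v n * α i| ≤ (v n) ^ θ) →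
          ∀ V : Fin k → ℕ → Submodule ℂ (Fin (2 * m) → ℂ), (∀ i, IsFibre β (t i) (C n) (A n) (V i)) →
            OnlyProducts (A n) V (U n)) ∧
    (∀ b : ℝ, 1 < b → ExpLe (fun n : ℕ => b ^ n) 0) ∧
    (∀ a : ℝ, 0 < a → ExpLe (fun n : ℕ => ((n : ℝ) + 1) ^ a) (1 / a)) := by
  refine ⟨fun k d hk => ?_, fun b hb => expLe_geom b hb, fun a ha => expLe_pow a ha⟩
  obtain ⟨δ, K, hδ, hK⟩ := (ArbitraryFactor.result hm β hβ).2 k d
  have hk1 : (1 : ℝ) ≤ k := by exact_mod_cast hk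
  refine ⟨min δ 1, lt_min hδ one_pos, min_le_right _ _, fun C A hC U hU v τ θ hv hτ hE hθ1 => ?_⟩
  have h1θ : 0 < 1 - θ := by linarith
  have hmin1 : min δ 1 ≤ 1 := min_le_right _ _
  have hminδ : min δ 1 ≤ δ := min_le_left _ _
  have hs0 : 0 ≤ (k : ℝ) - min δ 1 := by linarith
  have h1 := dim_bad (V := Fin k → ℝ) (S := fun n => {t : Fin k → ℕ | ∃ V : Fin k → ℕ → Submodule ℂ (Fin (2 * m) → ℂ),
        (∀ i, IsFibre β (t i) (C n) (A n) (V i)) ∧ ¬ OnlyProducts (A n) V (U n)}) (pos := rvec) hv hτ hE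
      (s := (k : ℝ) - min δ 1) hs0 hθ1 |K| (by
    intro n X hX
    have hX0 : 0 < X := by linarith
    have hsub : {t : Fin k → ℕ | t ∈ {t : Fin k → ℕ | ∃ V : Fin k → ℕ → Submodule ℂ (Fin (2 * m) → ℂ),
        (∀ i, IsFibre β (t i) (C n) (A n) (V i)) ∧ ¬ OnlyProducts (A n) V (U n)} ∧ ‖rvec t‖ ≤ X} ⊆
        {τ : Fin k → ℕ | (∀ i, τ i ≤ ⌊X⌋₊) ∧ ∃ V : Fin k → ℕ → Submodule ℂ (Fin (2 * m) → ℂ),
        (∀ i, IsFibre β (τ i) (C n) (A n) (V i)) ∧ ¬ OnlyProducts (A n) V (U n)} := by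
      rintro t ⟨ht, hn⟩
      refine ⟨fun i => ?_, ht⟩
      have h2 := (pi_norm_le_iff_of_nonneg hX0.le).1 hn i
      rw [rvec, Real.norm_eq_abs, abs_of_nonneg (Nat.cast_nonneg _)] at h2
      exact Nat.le_floor h2
    have hfin : {τ : Fin k → ℕ | (∀ i, τ i ≤ ⌊X⌋₊) ∧ ∃ V : Fin k → ℕ → Submodule ℂ (Fin (2 * m) → ℂ),
        (∀ i, IsFibre β (τ i) (C n) (A n) (V i)) ∧ ¬ OnlyProducts (A n) V (U n)}.Finite :=
      (Set.finite_Iic (fun _ => ⌊X⌋₊ : Fin k → ℕ)).subset fun τ hτ => fun i => hτ.1 i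
    refine ⟨hfin.subset hsub, ?_⟩
    have hf1 : 1 ≤ ⌊X⌋₊ := Nat.le_floor (by simpa using hX)
    have h3 := hK (C n) (A n) (hC n) (U n) (hU n) ⌊X⌋₊ hf1
    have h4 : (({t : Fin k → ℕ | t ∈ {t : Fin k → ℕ | ∃ V : Fin k → ℕ → Submodule ℂ (Fin (2 * m) → ℂ),
        (∀ i, IsFibre β (t i) (C n) (A n) (V i)) ∧ ¬ OnlyProducts (A n) V (U n)} ∧ ‖rvec t‖ ≤ X}.ncard : ℕ) : ℝ) ≤
        K * (⌊X⌋₊ : ℝ) ^ ((k : ℝ) - δ) := le_trans (by exact_mod_cast Set.ncard_le_ncard hsub hfin) h3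
    have hf1' : (1 : ℝ) ≤ (⌊X⌋₊ : ℝ) := by exact_mod_cast hf1
    calc (({t : Fin k → ℕ | t ∈ {t : Fin k → ℕ | ∃ V : Fin k → ℕ → Submodule ℂ (Fin (2 * m) → ℂ),
        (∀ i, IsFibre β (t i) (C n) (A n) (V i)) ∧ ¬ OnlyProducts (A n) V (U n)} ∧ ‖rvec t‖ ≤ X}.ncard : ℕ) : ℝ)
        ≤ K * (⌊X⌋₊ : ℝ) ^ ((k : ℝ) - δ) := h4
      _ ≤ |K| * (⌊X⌋₊ : ℝ) ^ ((k : ℝ) - δ) := mul_le_mul_of_nonneg_right (le_abs_self K) (by positivity)
      _ ≤ |K| * (⌊X⌋₊ : ℝ) ^ ((k : ℝ) - min δ 1) := by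
          apply mul_le_mul_of_nonneg_left _ (abs_nonneg K)
          exact Real.rpow_le_rpow_of_exponent_le hf1' (by linarith)
      _ ≤ |K| * X ^ ((k : ℝ) - min δ 1) := by
          apply mul_le_mul_of_nonneg_left _ (abs_nonneg K)
          exact Real.rpow_le_rpow (by linarith) (Nat.floor_le hX0.le) hs0)
  refine ⟨_, h1, fun hlt => ?_, fun α hα => ?_⟩
  · refine null_of_dimH h1 ?_ ?_
    · exact div_nonneg (by linarith) h1θ.le
    · rw [Fintype.card_fin, div_lt_iff₀ h1θ]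
      linarith
  · by_contra hcon
    apply hα
    intro n1
    push Not at hcon
    obtain ⟨n, hn, t, h2, V, h3, h4⟩ := hcon n1
    refine ⟨n, hn, t, ⟨V, h3, h4⟩, ?_⟩
    rw [pi_norm_le_iff_of_nonneg (Real.rpow_nonneg (by linarith [hv n]) _)]
    intro i
    rw [Real.norm_eq_abs]
    exact h2 i

end Pool.Agent.Results.MP_4e1cf2_ag.WindowsOfFibres
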